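import Mathlib
import Pool.Agent.Helper259.Orbit2Main

set_option autoImplicit false

open Filter Topology

namespace Pool.Agent.Results.MP_e8c887_nt.IrrationalHeight

/-- The places of a function field `K` over `k`: the normalised discrete valuations of `K`
(written multiplicatively, with value group all of `ℤ`) that are trivial on `k`. -/
def Place (k K : Type) [Field k] [Field K] [Algebra (RatFunc k) K] : Type :=
  {v : Valuation K (WithZero (Multiplicative ℤ)) //
    Function.Surjective v ∧
      ∀ c : k, c ≠ 0 → v (algebraMap (RatFunc k) K (RatFunc.C c)) = 1}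

/-- The Weil height of the point `[x 0 : x 1]` of the projective line over a function field `K`
over an algebraically closed field `k` (so that all places have degree one):
the sum over all places of `log max (v (x 0), v (x 1))`. -/
noncomputable def weilHeight (k K : Type) [Field k] [Field K] [Algebra (RatFunc k) K]
    (x : Fin 2 → K) : ℝ :=
  ∑ᶠ v : Place k K, ((WithZero.log (max (v.1 (x 0)) (v.1 (x 1))) : ℤ) : ℝ)

/-- The action of the pair of binary forms `F 0, F 1` on homogeneous coordinates. -/
noncomputable def act {K : Type} [Field K] (F : Fin 2 → MvPolynomial (Fin 2) K)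
    (x : Fin 2 → K) : Fin 2 → K :=
  fun i => MvPolynomial.eval x (F i)

open Pool.Agent.Helper259.Orbit2 Pool.Agent.Helper259.Orbit2Val Pool.Agent.Helper259.Orbit2Main

lemma log_max_eq {k : Type} [Field k] [Algebra (ZMod 2) k]
    (v : Valuation (RatFunc k) (WithZero (Multiplicative ℤ)))
    (x : Fin 2 → RatFunc k) (hx : x ≠ 0) :
    WithZero.log (max (v (x 0)) (v (x 1))) = locHt v x := by
  symm
  have hmax : max (v (x 0)) (v (x 1)) ≠ 0 := by
    intro h
    apply hx
    have h0 : v (x 0) = 0 := le_antisymm (h ▸ le_max_left _ _) zero_le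
    have h1 : v (x 1) = 0 := le_antisymm (h ▸ le_max_right _ _) zero_le
    rw [Valuation.zero_iff] at h0 h1
    funext i
    fin_cases i
    · exact h0
    · exact h1
  apply locHt_eq
  · intro i
    rw [WithZero.exp_log hmax]
    fin_cases i
    · exact le_max_left _ _
    · exact le_max_right _ _
  · rw [WithZero.exp_log hmax]
    rcases max_choice (v (x 0)) (v (x 1)) with h | h
    · exact ⟨0, h.symm⟩
    · exact ⟨1, h.symm⟩

lemma rr_tendsto : ∃ L : ℝ, Tendsto rr atTop (𝓝 L) := by
  have hmono : Monotone rr := by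
    apply monotone_nat_of_le_succ
    intro n
    rw [rr_succ]
    have : (0 : ℝ) ≤ (phi n : ℝ) / 4 ^ (n + 1) := by positivity
    linarith
  have hanti : ∀ n, rr n + (2 / 3) * (1 / 4 ^ n) ≤ 2 / 3 := by
    intro n
    induction n with
    | zero => simp [rr, ee]
    | succ n ih =>
      have h1 := (phi_bounds n).2
      have h2 : (0 : ℝ) < 1 / 4 ^ (n + 1) := by positivity
      have h3 : (1 : ℝ) / 4 ^ n = 4 * (1 / 4 ^ (n + 1)) := by
        have h4 : (4 : ℝ) ^ n ≠ 0 := by positivity
        rw [pow_succ]; field_simp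
      have h5 : (phi n : ℝ) / 4 ^ (n + 1) ≤ 2 * (1 / 4 ^ (n + 1)) := by
        rw [div_eq_mul_one_div]; exact mul_le_mul_of_nonneg_right h1 h2.le
      rw [rr_succ]
      rw [h3] at ih
      nlinarith
  refine ⟨_, tendsto_atTop_ciSup hmono ⟨2 / 3, ?_⟩⟩
  rintro y ⟨n, rfl⟩
  have h1 := hanti n
  have h2 : (0 : ℝ) ≤ (2 / 3) * (1 / 4 ^ n) := by positivity
  linarith

/-- There are a function field `K` over an algebraically closed field `k`, a rational map of the
projective line over `K` of degree `d ≥ 2` and a `K`-rational point whose canonical height is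
irrational. -/
theorem result :
    ∃ (k K : Type) (_ : Field k) (_ : IsAlgClosed k) (_ : Field K) (_ : Algebra (RatFunc k) K)
      (_ : FunctionField k K) (d : ℕ) (F : Fin 2 → MvPolynomial (Fin 2) K) (P : Fin 2 → K) (L : ℝ),
      2 ≤ d ∧ (∀ i, (F i).IsHomogeneous d) ∧
      (∀ y : Fin 2 → AlgebraicClosure K, (∀ i, MvPolynomial.aeval y (F i) = 0) → y = 0) ∧
      P ≠ 0 ∧
      Tendsto (fun n : ℕ => weilHeight k K ((act F)^[n] P) / (d : ℝ) ^ n) atTop (𝓝 L) ∧
      Irrational L := by
  have : Fact (Nat.Prime 2) := ⟨Nat.prime_two⟩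
  let k := AlgebraicClosure (ZMod 2)
  have hff : FunctionField k (RatFunc k) := by
    show FiniteDimensional (RatFunc k) (RatFunc k)
    infer_instance
  have : CharP (RatFunc k) 2 := by
    have : CharP k 2 := charP_of_injective_algebraMap (algebraMap (ZMod 2) k).injective 2
    exact charP_of_injective_algebraMap (algebraMap k (RatFunc k)).injective 2
  have : CharP (AlgebraicClosure (RatFunc k)) 2 :=
    charP_of_injective_algebraMap
      (algebraMap (RatFunc k) (AlgebraicClosure (RatFunc k))).injective 2
  obtain ⟨L, hL⟩ := rr_tendsto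
  have hxx : ∀ n, xx (k := k) n ≠ 0 := by
    intro n h
    have h1 := congrFun h 1
    simp only [xx, Matrix.cons_val_one, Pi.zero_apply] at h1
    exact emb_ne_zero (mul_ne_zero (pow_ne_zero _ Polynomial.X_ne_zero) (qq_ne_zero n)) h1
  refine ⟨k, RatFunc k, inferInstance, inferInstance, inferInstance, inferInstance, hff, 4,
    FF (RatFunc.X : RatFunc k), xx (k := k) 0, 2 - L, by norm_num, FF_homog _, ?_, hxx 0, ?_, ?_⟩
  · intro y hy
    have h0 := hy 0
    have h1 := hy 1
    rw [(FF_aeval (RatFunc.X : RatFunc k) y).1] at h0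
    rw [(FF_aeval (RatFunc.X : RatFunc k) y).2] at h1
    have hT : algebraMap (RatFunc k) (AlgebraicClosure (RatFunc k)) RatFunc.X ≠ 0 := by
      rw [Ne, FaithfulSMul.algebraMap_eq_zero_iff]
      exact RatFunc.X_ne_zero
    obtain ⟨hx, hz⟩ := FF_nonsing _ hT _ _ h0 h1
    funext i
    fin_cases i
    · exact hx
    · exact hz
  · have hit : ∀ n, (act (FF (RatFunc.X : RatFunc k)))^[n] (xx (k := k) 0) = xx n := fun n =>
      iterate_eq n
    have hh : ∀ n, weilHeight k (RatFunc k) (xx n) = 2 * 4 ^ n - ee n := by
      intro n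
      rw [← height_eq (k := k) n]
      unfold weilHeight
      apply finsum_congr
      intro v
      have := log_max_eq v.1 (xx n) (hxx n)
      exact_mod_cast this
    have e : (fun n : ℕ => weilHeight k (RatFunc k)
        ((act (FF (RatFunc.X : RatFunc k)))^[n] (xx (k := k) 0)) / ((4 : ℕ) : ℝ) ^ n) =
        fun n => 2 - rr n := by
      funext n
      have h4 : (4 : ℝ) ^ n ≠ 0 := by positivity
      rw [hit, hh, rr]
      push_cast
      field_simp
    rw [e]
    exact tendsto_const_nhds.sub hL
  · rintro ⟨q, hq⟩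
    apply not_rational (2 - q)
    have : ((2 - q : ℚ) : ℝ) = L := by
      push_cast
      linarith
    rw [this]
    exact hL

end Pool.Agent.Results.MP_e8c887_nt.IrrationalHeight
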